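import Pool.Agent.Helper92.BO.GoalsA

/-!
# BO-MNJ: monotonicity of the potential
-/

namespace Pool.Agent.Helper55.BO

open MeasureTheory Filter Topology Function Pool.Agent.Helper92.BO

theorem pm_cases {G : SimpleGraph ℕ} {s : ℕ → ℝ} (h : Sgn G s) (v : ℕ) : s v = 1 ∨ s v = -1 :=
  h.pm v

theorem good_cut (G : SimpleGraph ℕ) (L : List ℕ) (v : ℕ) (b : ℕ → ℝ) (hb : Good L b) (x : ℝ)
    (h0 : 0 < x) (h1 : x < 1) (h2 : x ≠ 1 / 2) : Good L (cut G v (1 - x) b) := by
  intro u hu
  obtain ⟨ha, hb', hc⟩ := hb u hu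
  unfold cut
  split_ifs with h
  · refine ⟨lt_min ha (by linarith), (min_le_left _ _).trans hb', ?_⟩
    rcases min_choice (b u) (1 - x) with h3 | h3 <;> rw [h3]
    · exact hc
    · intro h4
      apply h2
      linarith
  · exact ⟨ha, hb', hc⟩

theorem good_in01 {L : List ℕ} {b : ℕ → ℝ} (h : Good L b) : In01 L b := fun u hu =>
  ⟨(h u hu).1.le, (h u hu).2.1⟩

theorem good_pos1 {L : List ℕ} {b : ℕ → ℝ} (h : Good L b) : Pos1 L b := fun u hu =>
  ⟨(h u hu).1, (h u hu).2.1⟩

theorem leq_cut_pos {G : SimpleGraph ℕ} {s : ℕ → ℝ} (h : Sgn G s) (L : List ℕ) (v : ℕ)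
    (b : ℕ → ℝ) (hv : s v = 1) (x' x : ℝ) (hx : x' ≤ x) :
    Leq s L (cut G v (1 - x') b) (cut G v (1 - x) b) := by
  intro u _
  unfold cut
  split_ifs with h'
  · have := h.alt v u h'
    have h3 : s u = -1 := by linarith
    rw [h3]
    have := min_le_min (le_refl (b u)) (show 1 - x ≤ 1 - x' by linarith)
    linarith
  · exact le_refl _

theorem leq_cut_neg {G : SimpleGraph ℕ} {s : ℕ → ℝ} (h : Sgn G s) (L : List ℕ) (v : ℕ)
    (b : ℕ → ℝ) (hv : s v = -1) (x' x : ℝ) (hx : x' ≤ x) :
    Leq s L (cut G v (1 - x) b) (cut G v (1 - x') b) := by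
  intro u _
  unfold cut
  split_ifs with h'
  · have := h.alt v u h'
    have h3 : s u = 1 := by linarith
    rw [h3]
    have := min_le_min (le_refl (b u)) (show 1 - x ≤ 1 - x' by linarith)
    linarith
  · exact le_refl _

/-- LOC for the head. -/
theorem zr_update (hloc : LocStmt) (G : SimpleGraph ℕ) (s : ℕ → ℝ) (l : ℝ) (L : List ℕ) (v : ℕ)
    (b : ℕ → ℝ) (hv : v ∉ L) (y : ℝ) :
    ZR G l (v :: L) (update b v y) = Zf l (fun x => ZR G l L (cut G v (1 - x) b)) y := by
  have h1 : ∀ x : ℝ, ZR G l L (cut G v (1 - x) (update b v y)) = ZR G l L (cut G v (1 - x) b) := by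
    intro x
    refine (hloc G s 0 l L _ _ ?_).2.1
    intro u hu
    have : u ≠ v := fun h => hv (h ▸ hu)
    unfold cut
    rw [update_of_ne this]
  simp only [ZR, Zf, rho, update_self]
  congr 1
  ext x
  rw [h1]

theorem rho_nonneg {d : ℕ} {l : ℝ} (hl : 0 < l) {W : ℝ → ℝ} (hW : Adm d W) (x : ℝ) (h0 : 0 ≤ x)
    (h1 : x < 1) : 0 ≤ rho l W x := by
  unfold rho psiR
  have := hW.pos x h0 h1
  split_ifs
  · linarith
  · positivity

theorem ae_ne3 (a b c : ℝ) (S : Set ℝ) : ∀ᵐ x ∂(volume.restrict S), x ≠ a ∧ x ≠ b ∧ x ≠ c := by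
  have h : ∀ a : ℝ, ∀ᵐ x ∂(volume : Measure ℝ), x ≠ a := fun a => by
    have := (measure_singleton (μ := (volume : Measure ℝ)) a)
    rw [ae_iff]
    simp [this]
  have := (h a).and ((h b).and (h c))
  exact ae_restrict_of_ae this

theorem cf_nonneg {d : ℕ} {l : ℝ} (hl : 0 < l) {W J : ℝ → ℝ} (hW : Adm d W) (y' y : ℝ)
    (h0 : 0 < y') (h1 : y' < y) (h2 : y ≤ 1)
    (hJ : ∀ x' x : ℝ, 0 < x' → x' < x → x < 1 → x' ≠ 1 / 2 → x ≠ 1 / 2 → J x' ≤ J x) :
    0 ≤ Cf l W J y' y := by
  unfold Cf
  apply intervalIntegral.integral_nonneg_of_ae_restrict h1.le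
  have hm : ∀ᵐ x ∂(volume.restrict (Set.Icc y' y)), x ∈ Set.Icc y' y :=
    ae_restrict_mem measurableSet_Icc
  filter_upwards [hm, ae_ne3 y' 1 (1 / 2) (Set.Icc y' y)] with x hx hx'
  simp only [Pi.zero_apply]
  obtain ⟨hxa, hxb⟩ := hx
  obtain ⟨hx1, hx2, hx3⟩ := hx'
  have hxl : y' < x := lt_of_le_of_ne hxa (Ne.symm hx1)
  have hx4 : x < 1 := lt_of_le_of_ne (hxb.trans h2) hx2
  apply intervalIntegral.integral_nonneg_of_ae_restrict h0.le
  have hm' : ∀ᵐ x ∂(volume.restrict (Set.Icc 0 y')), x ∈ Set.Icc 0 y' :=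
    ae_restrict_mem measurableSet_Icc
  filter_upwards [hm', ae_ne3 0 0 (1 / 2) (Set.Icc 0 y')] with z hz hz'
  simp only [Pi.zero_apply]
  obtain ⟨hza, hzb⟩ := hz
  obtain ⟨hz1, -, hz3⟩ := hz'
  have hz0 : 0 < z := lt_of_le_of_ne hza (Ne.symm hz1)
  have := hJ z x hz0 (by linarith) hx4 hz3 hx3
  have h5 := rho_nonneg hl hW x (by linarith) hx4
  have h6 := rho_nonneg hl hW z hz0.le (by linarith)
  exact mul_nonneg (mul_nonneg h5 h6) (by linarith)

/-- The core: one coordinate. -/
theorem core (hkid : KidStmt) (hloc : LocStmt) (hadm : AdmStmt) (hsrd : SrdStmt) (hpos : PosStmt)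
    (G : SimpleGraph ℕ) (s : ℕ → ℝ) (l : ℝ) (Δ : ℕ) (hs : Sgn G s) (hΔ : DegLe G Δ) (hl : 0 < l)
    (hl1 : l ≤ 1) (L : List ℕ) (hL : L.Nodup)
    (IH : ∀ b b' : ℕ → ℝ, Good L b → Good L b' → Leq s L b b' → JR G s l L b ≤ JR G s l L b')
    (v : ℕ) (b : ℕ → ℝ) (hv : v ∉ L) (hb : Good L b) (y' y : ℝ) (h0 : 0 < y') (h1 : y' < y)
    (h2 : y ≤ 1) (h3 : y' ≠ 1 / 2) (h4 : y ≠ 1 / 2) :
    0 ≤ s v * (JR G s l (v :: L) (update b v y) - JR G s l (v :: L) (update b v y')) := by
  have hW := hadm G Δ l L v b hΔ hl hl1 hL hv (good_pos1 hb)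
  have hid := hkid G s l hs hl hl1 L v b hv hb y' y h0 h1 h2
  have hS := (hsrd Δ l _ hl hl1 hW y' y h0 h1 h2 h3 h4).2.1
  have hC : 0 ≤ Cf l (fun x => ZR G l L (cut G v (1 - x) b))
      (fun x => s v * JR G s l L (cut G v (1 - x) b)) y' y := by
    refine cf_nonneg hl hW y' y h0 h1 h2 ?_
    intro x' x hx0 hxx hx1 hx' hx
    have g1 := good_cut G L v b hb x' hx0 (by linarith) hx'
    have g2 := good_cut G L v b hb x (by linarith) hx1 hx
    rcases hs.pm v with h | h
    · have := IH _ _ g1 g2 (leq_cut_pos hs L v b h x' x hxx.le)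
      simp only [h, one_mul]
      exact this
    · have := IH _ _ g2 g1 (leq_cut_neg hs L v b h x' x hxx.le)
      simp only [h]
      linarith
  have hZ : ∀ z : ℝ, 0 < z → z ≤ 1 → 0 < Zf l (fun x => ZR G l L (cut G v (1 - x) b)) z := by
    intro z hz0 hz1
    rw [← zr_update hloc G s l L v b hv z]
    refine (hpos G l (v :: L) (update b v z) hl hl1).2 ?_
    intro u hu
    rcases List.mem_cons.1 hu with rfl | hu
    · simp [hz0, hz1]
    · have : u ≠ v := fun h => hv (h ▸ hu)
      rw [update_of_ne this]
      exact good_pos1 hb u hu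
  have hZ' := hZ y' h0 (by linarith)
  have hZy := hZ y (by linarith) h2
  have hprod := mul_pos hZ' hZy
  by_contra hcon
  push Not at hcon
  have := mul_neg_of_neg_of_pos hcon hprod
  rw [hid] at this
  linarith

theorem mnj (hkid : KidStmt) (hkpm : KpmStmt) (hprm : PrmStmt) (hloc : LocStmt) (hadm : AdmStmt)
    (hsrd : SrdStmt) (hpos : PosStmt) : MnjStmt := by
  intro G s l Δ hs hΔ hl hl1 L
  have key : ∀ n : ℕ, ∀ L : List ℕ, L.length = n → ∀ b b' : ℕ → ℝ, L.Nodup → Good L b →
      Good L b' → Leq s L b b' → JR G s l L b ≤ JR G s l L b' := by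
    intro n
    induction n using Nat.strong_induction_on with
    | _ n IH =>
      intro L hn b b' hL hb hb' hle
      classical
      -- everything depends only on the bounds on `L`
      have jloc : ∀ (M : List ℕ) (c c' : ℕ → ℝ), (∀ u ∈ M, c u = c' u) →
          JR G s l M c = JR G s l M c' := by
        intro M c c' h
        unfold JR
        rw [(hloc G s 0 l M c c' h).2.1, (hloc G s 0 l M c c' h).2.2]
      have jperm : ∀ (M M' : List ℕ) (c : ℕ → ℝ), M.Perm M' → Good M c →
          JR G s l M c = JR G s l M' c := by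
        intro M M' c h hc
        unfold JR
        rw [(hprm G 0 l M M' c h (good_in01 hc)).2, hkpm G s l hs hl hl1 M M' c h hc]
      have step : ∀ K : List ℕ, JR G s l L b ≤ JR G s l L (fun u => if u ∈ K then b' u else b u) ∧
          Good L (fun u => if u ∈ K then b' u else b u) := by
        intro K
        induction K with
        | nil =>
          have h0 : (fun u => if u ∈ ([] : List ℕ) then b' u else b u) = b := by
            ext u
            simp
          rw [h0]
          exact ⟨le_refl _, hb⟩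
        | cons u K ih =>
          obtain ⟨ih1, ih2⟩ := ih
          set c : ℕ → ℝ := fun u => if u ∈ K then b' u else b u with hc
          set c' : ℕ → ℝ := fun w => if w ∈ u :: K then b' w else b w with hc'
          have hcc : c' = update c u (b' u) := by
            ext w
            by_cases hw : w = u
            · subst hw
              simp [hc']
            · rw [update_of_ne hw]
              simp [hc', hc, hw]
          have hg : Good L c' := by
            intro w hw
            simp only [hc']
            split_ifs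
            · exact hb' w hw
            · exact hb w hw
          refine ⟨ih1.trans ?_, hg⟩
          by_cases hu : u ∈ L
          · have hperm : L.Perm (u :: L.erase u) := List.perm_cons_erase hu
            have hnd : (L.erase u).Nodup := hL.erase u
            have hnm : u ∉ L.erase u := hL.not_mem_erase
            have hlen : (L.erase u).length < n := by
              rw [List.length_erase_of_mem hu, hn]
              have : 0 < L.length := List.length_pos_of_mem hu
              omega
            have hce : Good (L.erase u) c := fun w hw => ih2 w (List.mem_of_mem_erase hw)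
            rw [jperm _ _ _ hperm ih2, jperm _ _ _ hperm hg, hcc]
            have hcu : c = update c u (c u) := by simp
            have hcore := core hkid hloc hadm hsrd hpos G s l Δ hs hΔ hl hl1 (L.erase u) hnd
              (fun d d' h1 h2 h3 => IH _ hlen (L.erase u) rfl d d' hnd h1 h2 h3) u c hnm hce
            have hle' : s u * c u ≤ s u * b' u := by
              simp only [hc]
              split_ifs
              · exact le_refl _
              · exact hle u hu
            have hcu' := ih2 u hu
            have hbu' := hb' u hu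
            rcases hs.pm u with h | h
            · rw [h] at hle' hcore
              simp only [one_mul] at hle' hcore
              rcases hle'.lt_or_eq with hlt | heq
              · have := hcore (c u) (b' u) hcu'.1 hlt hbu'.2.1 hcu'.2.2 hbu'.2.2
                rw [← hcu] at this
                linarith
              · rw [← heq, ← hcu]
            · rw [h] at hle' hcore
              have hle2 : b' u ≤ c u := by linarith
              rcases hle2.lt_or_eq with hlt | heq
              · have := hcore (b' u) (c u) hbu'.1 hlt hcu'.2.1 hbu'.2.2 hcu'.2.2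
                rw [← hcu] at this
                linarith
              · rw [heq, ← hcu]
          · apply le_of_eq
            apply jloc
            intro w hw
            rw [hcc, update_of_ne]
            rintro rfl
            exact hu hw
      refine (step L).1.trans (le_of_eq (jloc L _ _ ?_))
      intro u hu
      simp [hu]
  intro b b' hL hb hb' hle
  exact key _ L rfl b b' hL hb hb' hle

end Pool.Agent.Helper55.BO
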